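import Pool.Agent.Helper79.TL.Core

/-!
# TL-A7: `fside_dim`
-/

set_option autoImplicit false
set_option linter.unusedSectionVars false
set_option linter.unusedSimpArgs false

open Module

namespace Pool.Agent.Helper79.TL.A7

variable {F : Type} [Field F] [CharP F 3] {M : Type} [AddCommGroup M] [Module F M]
  {t s : Module.End F M} {Y : Fin 3 → Module.End F M}

/-- TL-A7 -/
theorem fside_dim (h : HMod t s Y) (ξ : F) (hξ : ξ ^ 5 = 1) (hξ1 : ξ ≠ 1)
    (w : M) (hw : w ≠ 0) (htw : t w = ξ • w) (hgen : Gen t s Y w)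
    (h0 : Y 0 (w + s w) = (- (ξ + ξ ^ 4)) • (w + s w)) : finrank F M ≤ 2 := by
  have h3 : (3 : F) = 0 := by exact_mod_cast CharP.cast_eq_zero F 3
  have hsum : 1 + ξ + ξ ^ 2 + ξ ^ 3 + ξ ^ 4 = 0 := by
    have : (ξ - 1) * (1 + ξ + ξ ^ 2 + ξ ^ 3 + ξ ^ 4) = 0 := by
      linear_combination hξ
    rcases mul_eq_zero.1 this with h1 | h1
    · exact absurd (sub_eq_zero.1 h1) hξ1
    · exact h1
  have hξ0 : ξ ≠ 0 := by
    rintro rfl
    norm_num at hξ
  -- `d1`, `d2`
  have hd1 : ξ - ξ ^ 4 ≠ 0 := by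
    intro hd
    apply hξ1
    have h1 : ξ * (1 - ξ ^ 3) = 0 := by linear_combination hd
    rcases mul_eq_zero.1 h1 with h2 | h2
    · exact absurd h2 hξ0
    · linear_combination (-1 - ξ ^ 3) * h2 - ξ * hξ
  have hd2 : ξ ^ 2 - ξ ^ 3 ≠ 0 := by
    intro hd
    have : ξ ^ 2 * (1 - ξ) = 0 := by linear_combination hd
    rcases mul_eq_zero.1 this with h1 | h1
    · exact absurd (pow_eq_zero_iff (by norm_num) |>.1 h1) hξ0
    · exact absurd (sub_eq_zero.1 h1).symm hξ1
  -- pointwise relations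
  have hst : ∀ x, s (t x) = t (t (t (t (s x)))) := fun x => by
    have := congrArg (fun f : Module.End F M => f x) h.st
    simpa [Module.End.mul_apply, pow_succ] using this
  have ht5 : ∀ x, t (t (t (t (t x)))) = x := fun x => by
    have := congrArg (fun f : Module.End F M => f x) h.t5
    simpa [Module.End.mul_apply, pow_succ] using this
  have hss : ∀ x, s (s x) = x := fun x => by
    have := congrArg (fun f : Module.End F M => f x) h.ss
    simpa [Module.End.mul_apply] using this
  have htsw : t (s w) = ξ ^ 4 • s w := by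
    have h1 : s (t w) = ξ • s w := by rw [htw, map_smul]
    rw [hst] at h1
    have h2 := congrArg t h1
    rw [ht5, map_smul] at h2
    have h3 : s w = ξ • t (s w) := h2
    have h4 : ξ ^ 4 • s w = ξ ^ 4 • (ξ • t (s w)) := congrArg _ h3
    rw [h4, smul_smul, ← pow_succ, hξ, one_smul]
  obtain ⟨w', hw'⟩ : ∃ w', w' = s w := ⟨_, rfl⟩
  have hsw' : s w' = w := by rw [hw', hss]
  rw [← hw'] at htsw h0
  have hY0w' : Y 0 w' = Y 0 w := by
    have := congrArg (fun f : Module.End F M => f w) h.Y0s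
    simpa [Module.End.mul_apply, ← hw'] using this
  have hY1w' : Y 1 w' = Y 1 w := by
    have := congrArg (fun f : Module.End F M => f w) h.Y1s
    simpa [Module.End.mul_apply, ← hw'] using this
  have hY2w' : Y 2 w' = - Y 2 w := by
    have := congrArg (fun f : Module.End F M => f w) h.Y2s
    simpa [Module.End.mul_apply, ← hw'] using this
  have hY0 : Y 0 w = (ξ + ξ ^ 4) • (w + w') := by
    rw [map_add, hY0w'] at h0
    have : (2 : F) • Y 0 w = (- (ξ + ξ ^ 4)) • (w + w') := by
      rw [← h0]; module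
    have e : Y 0 w = (3 : F) • Y 0 w - (2 : F) • Y 0 w := by module
    rw [e, this, h3]; module
  have hY1 : Y 1 w = (- (1 + (ξ + ξ ^ 4))) • (w + w') := by
    have := congrArg (fun f : Module.End F M => f w) h.r000
    simp only [Module.End.mul_apply, LinearMap.sub_apply, LinearMap.add_apply, ← hw', hY0,
      map_add, map_smul, hY0w'] at this
    simp only [Module.End.ofNat_apply, map_add, map_smul, hY0w', hY0, hsw', ← hw'] at this
    have e : Y 1 w = (16 : F) • (w + w') - (3 : F) • Y 1 w 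
        - (16 • w + 16 • w' - 4 • Y 1 w) := by module
    rw [e, ← this, h3]
    match_scalars
    · grind
    · grind
    · ring
  -- `Y 2 w`
  obtain ⟨v, hv⟩ : ∃ v, v = Y 2 w := ⟨_, rfl⟩
  have h010 := congrArg (fun f : Module.End F M => f w) h.r010
  simp only [Module.End.mul_apply, LinearMap.sub_apply, LinearMap.add_apply, LinearMap.neg_apply,
    pow_succ, pow_zero, Module.End.one_apply,
    htw, htsw, map_add, map_sub, map_smul, map_neg, hY0w', hY1w', hY2w', hY0, hY1, ← hv] at h010
  have h210 := congrArg (fun f : Module.End F M => f w) h.r210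
  simp only [Module.End.mul_apply, LinearMap.sub_apply, LinearMap.add_apply, LinearMap.neg_apply,
    pow_succ, pow_zero, Module.End.one_apply,
    htw, htsw, map_add, map_sub, map_smul, map_neg, hY0w', hY1w', hY2w', hY0, hY1, ← hv] at h210
  have e1 : (ξ ^ 2 - ξ ^ 3) • (t (t (v + (w - w'))) - t (t (t (v + (w - w'))))) = 0 := by
    simp only [map_add, map_sub, map_smul, htw, htsw]
    linear_combination (norm := skip) (-1 : F) • h010
    match_scalars <;> grind
  clear h010
  have e2 := (smul_eq_zero.1 e1).resolve_left hd2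
  have e3 : t (v + (w - w')) = v + (w - w') := by
    have e4 := congrArg (fun x => t (t (t x))) (sub_eq_zero.1 e2)
    rw [ht5] at e4
    exact e4.symm
  have e5 : (ξ - ξ ^ 4) • (v + t v + t (t v) + t (t (t v)) + t (t (t (t v)))) = 0 := by
    have e6 := congrArg (fun x => x + t x + t (t x) + t (t (t x)) + t (t (t (t x)))) h210
    simp only [map_add, map_sub, map_smul, map_neg, htw, htsw, ht5] at e6
    linear_combination (norm := skip) (1 : F) • e6
    clear e1 e2 e3 e6 h210 hY0 hY1 hY0w' hY1w' hY2w' hst ht5 hss h0 htsw hgen hw' hsw' hv hw htw h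
    match_scalars
    · linear_combination ((-3) * ξ ^ 0 + (-1) * ξ ^ 3 + (1) * ξ ^ 4) * hsum + ((1) * ξ ^ 0 + (2) * ξ ^ 1 + (2) * ξ ^ 3) * h3
    · linear_combination ((-3) * ξ ^ 0 + (-1) * ξ ^ 3 + (1) * ξ ^ 4) * hsum + ((1) * ξ ^ 0 + (2) * ξ ^ 1 + (2) * ξ ^ 3) * h3
    · linear_combination ((-3) * ξ ^ 0 + (-1) * ξ ^ 3 + (1) * ξ ^ 4) * hsum + ((1) * ξ ^ 0 + (2) * ξ ^ 1 + (2) * ξ ^ 3) * h3
    · linear_combination ((-3) * ξ ^ 0 + (-1) * ξ ^ 3 + (1) * ξ ^ 4) * hsum + ((1) * ξ ^ 0 + (2) * ξ ^ 1 + (2) * ξ ^ 3) * h3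
    · linear_combination ((-3) * ξ ^ 0 + (-1) * ξ ^ 3 + (1) * ξ ^ 4) * hsum + ((1) * ξ ^ 0 + (2) * ξ ^ 1 + (2) * ξ ^ 3) * h3
    · linear_combination ((1) * ξ ^ 2 + (1) * ξ ^ 3 + (1) * ξ ^ 5 + (1) * ξ ^ 6 + (-1) * ξ ^ 7 +
        (-1) * ξ ^ 9 + (-1) * ξ ^ 10 + (-1) * ξ ^ 12) * hsum
    · linear_combination ((1) * ξ ^ 5 + (-1) * ξ ^ 7 + (1) * ξ ^ 8 + (2) * ξ ^ 9 + (-1) * ξ ^ 10 + (1) * ξ ^ 12 + (1) * ξ ^ 13 + (1) * ξ ^ 14 + (-2) * ξ ^ 15 + (1) * ξ ^ 16 + (1) * ξ ^ 17 + (-1) * ξ ^ 18 + (1) * ξ ^ 19 + (-1) * ξ ^ 20 + (1) * ξ ^ 22 + (-1) * ξ ^ 23 + (1) * ξ ^ 24 + (-2) * ξ ^ 25 + (2) * ξ ^ 27 + (-2) * ξ ^ 28 + (-1) * ξ ^ 29 + (-2) * ξ ^ 33 + (1) * ξ ^ 35 + (-1) * ξ ^ 36) * hsum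
  have e7 := (smul_eq_zero.1 e5).resolve_left hd1
  have e8 : v + (w - w') = 0 := by
    have e9 : t v = v + (w - w') - (ξ • w - ξ ^ 4 • w') := by
      rw [map_add, map_sub, htw, htsw] at e3
      rw [← e3]; module
    simp only [e9, map_add, map_sub, map_smul, htw, htsw] at e7
    linear_combination (norm := skip) (-1 : F) • e7
    match_scalars <;> grind
  have hY2 : Y 2 w = - (w - w') := by rw [← hv]; exact eq_neg_of_add_eq_zero_left e8
  -- the span of `w` and `w'`
  have hr : Set.range ![w, w'] = {w, w'} := Matrix.range_cons_cons_empty w w' _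
  have hN : Submodule.span F (Set.range ![w, w']) = ⊤ := by
    rw [hr]
    have mw : w ∈ Submodule.span F {w, w'} := Submodule.subset_span (by simp)
    have mw' : w' ∈ Submodule.span F {w, w'} := Submodule.subset_span (by simp)
    have tN : ∀ (k : ℕ) (x : M), x ∈ Submodule.span F {w, w'} →
        (t ^ k) x ∈ Submodule.span F {w, w'} := by
      intro k
      induction k with
      | zero => intro x hx; simpa using hx
      | succ k ih =>
        intro x hx
        obtain ⟨a, b, rfl⟩ := Submodule.mem_span_pair.1 hx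
        rw [pow_succ, Module.End.mul_apply, map_add, map_smul, map_smul, htw, htsw]
        exact ih _ (Submodule.add_mem _ (Submodule.smul_mem _ _ (Submodule.smul_mem _ _ mw))
          (Submodule.smul_mem _ _ (Submodule.smul_mem _ _ mw')))
    apply hgen
    · intro k e
      rw [Module.End.mul_apply]
      apply tN
      induction e with
      | zero => simpa using mw
      | succ e ih =>
        rw [pow_succ', Module.End.mul_apply]
        obtain ⟨a, b, hab⟩ := Submodule.mem_span_pair.1 ih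
        rw [← hab, map_add, map_smul, map_smul, ← hw', hsw']
        exact Submodule.add_mem _ (Submodule.smul_mem _ _ mw') (Submodule.smul_mem _ _ mw)
    · intro k m j
      have htm : (t ^ m) w = ξ ^ m • w := by
        induction m with
        | zero => simp
        | succ m ih =>
          rw [pow_succ', Module.End.mul_apply, ih, map_smul, htw, smul_smul, ← pow_succ]
      rw [Module.End.mul_apply, Module.End.mul_apply, htm, map_smul]
      apply tN
      apply Submodule.smul_mem
      fin_cases j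
      · change Y 0 w ∈ _
        rw [hY0]
        exact Submodule.smul_mem _ _ (Submodule.add_mem _ mw mw')
      · change Y 1 w ∈ _
        rw [hY1]
        exact Submodule.smul_mem _ _ (Submodule.add_mem _ mw mw')
      · change Y 2 w ∈ _
        rw [hY2]
        exact Submodule.neg_mem _ (Submodule.sub_mem _ mw mw')
  rw [← finrank_top F M, ← hN]
  exact finrank_range_le_card ![w, w']

end Pool.Agent.Helper79.TL.A7
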